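import Mathlib
import Pool.Agent.H27.RC.Stmts

open scoped InnerProductSpace
open Filter Topology

noncomputable section

namespace Pool.Agent.H87.RC

open Pool.Agent.H27.RC

section basics

variable {E : Type} [NormedAddCommGroup E] [InnerProductSpace ℂ E] [CompleteSpace E]

theorem aeval_eig (A : E →L[ℂ] E) (l : ℝ) (v : E) (hv : A v = (l : ℂ) • v)
    (p : Polynomial ℝ) : (Polynomial.aeval A p) v = ((p.eval l : ℝ) : ℂ) • v := by
  induction p using Polynomial.induction_on' with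
  | add p q hp hq =>
    rw [map_add, add_apply, hp, hq, Polynomial.eval_add]
    push_cast
    rw [add_smul]
  | monomial n a =>
    have hpow : ∀ n : ℕ, (A ^ n) v = ((l ^ n : ℝ) : ℂ) • v := by
      intro n
      induction n with
      | zero => simp
      | succ n ih =>
        rw [pow_succ', mul_apply_eq_comp, ih, map_smul, hv, smul_smul, pow_succ]
        push_cast
        rfl
    rw [Polynomial.aeval_monomial, Polynomial.eval_monomial, mul_apply_eq_comp, hpow]
    rw [Algebra.algebraMap_eq_smul_one, smul_apply,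
      one_apply_eq_self]
    push_cast
    rw [← smul_smul]
    rfl

theorem cfc_eig (A : E →L[ℂ] E) (hA : IsSelfAdjoint A) (f : ℝ → ℝ) (hf : Continuous f) (l : ℝ)
    (v : E) (hv : A v = (l : ℂ) • v) : cfc f A v = ((f l : ℝ) : ℂ) • v := by
  set K : ℝ := max |l| (‖A‖ * ‖(1 : E →L[ℂ] E)‖) with hK
  have key : ∀ η : ℝ, 0 < η → ‖cfc f A v - ((f l : ℝ) : ℂ) • v‖ ≤ 2 * η * ‖v‖ := by
    intro η hη
    obtain ⟨p, hp⟩ := exists_polynomial_near_of_continuousOn (-K) K f hf.continuousOn η hη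
    have h1 : ‖cfc f A - cfc (fun x => p.eval x) A‖ ≤ η := by
      rw [← cfc_sub f (fun x => p.eval x) A hf.continuousOn p.continuous.continuousOn]
      apply norm_cfc_le hη.le
      intro x hx
      have hx2 : |x| ≤ K := le_trans (by
        have := spectrum.norm_le_norm_mul_of_mem hx
        rwa [Real.norm_eq_abs] at this) (le_max_right _ _)
      have := hp x (abs_le.mp hx2)
      rw [Real.norm_eq_abs, abs_sub_comm]
      exact this.le
    have h2 : cfc (fun x => p.eval x) A = Polynomial.aeval A p := cfc_polynomial p A hA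
    have h3 : |p.eval l - f l| < η := hp l (abs_le.mp (le_max_left _ _))
    have h4 : cfc f A v - ((f l : ℝ) : ℂ) • v =
        (cfc f A - cfc (fun x => p.eval x) A) v + (((p.eval l - f l : ℝ)) : ℂ) • v := by
      rw [sub_apply, h2, aeval_eig A l v hv p]
      push_cast
      rw [sub_smul]
      abel
    rw [h4]
    calc ‖(cfc f A - cfc (fun x => p.eval x) A) v + (((p.eval l - f l : ℝ)) : ℂ) • v‖
        ≤ ‖(cfc f A - cfc (fun x => p.eval x) A) v‖ + ‖(((p.eval l - f l : ℝ)) : ℂ) • v‖ :=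
          norm_add_le _ _
      _ ≤ η * ‖v‖ + η * ‖v‖ := by
          gcongr
          · exact ContinuousLinearMap.le_of_opNorm_le _ h1 v
          · rw [norm_smul, Complex.norm_real, Real.norm_eq_abs]
            gcongr
      _ = 2 * η * ‖v‖ := by ring
  have h0 : ‖cfc f A v - ((f l : ℝ) : ℂ) • v‖ ≤ 0 := by
    by_contra hcon
    push Not at hcon
    set d := ‖cfc f A v - ((f l : ℝ) : ℂ) • v‖ with hd
    have hη : 0 < d / (2 * (2 * (‖v‖ + 1))) := by positivity
    have := key _ hη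
    have h5 : 2 * (d / (2 * (2 * (‖v‖ + 1)))) * ‖v‖ ≤ d / 2 := by
      have hv0 : 0 ≤ ‖v‖ := norm_nonneg _
      rw [show 2 * (d / (2 * (2 * (‖v‖ + 1)))) * ‖v‖ = (d / 2) * (‖v‖ / (‖v‖ + 1)) by
        field_simp]
      have : ‖v‖ / (‖v‖ + 1) ≤ 1 := by
        rw [div_le_one (by positivity)]
        linarith
      nlinarith
    linarith
  have := norm_le_zero_iff.mp h0
  exact sub_eq_zero.mp this

end basics

section eig

variable {E : Type} [NormedAddCommGroup E] [InnerProductSpace ℂ E] [FiniteDimensional ℂ E]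
  [CompleteSpace E]

/-- eigenbasis -/
structure EB (A : E →L[ℂ] E) where
  b : OrthonormalBasis (Fin (Module.finrank ℂ E)) ℂ E
  lam : Fin (Module.finrank ℂ E) → ℝ
  nonneg : ∀ k, 0 ≤ lam k
  eig : ∀ k, A (b k) = ((lam k : ℝ) : ℂ) • b k
  sa : IsSelfAdjoint A

theorem exists_EB (A : E →L[ℂ] E) (hA : 0 ≤ A) : Nonempty (EB A) := by
  have hpos := (ContinuousLinearMap.nonneg_iff_isPositive A).mp hA
  have hsa : IsSelfAdjoint A := hpos.isSelfAdjoint
  have hsym : (A : E →ₗ[ℂ] E).IsSymmetric := ContinuousLinearMap.isSelfAdjoint_iff_isSymmetric.mp hsa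
  refine ⟨⟨hsym.eigenvectorBasis rfl, hsym.eigenvalues rfl, ?_, ?_, hsa⟩⟩
  · intro k
    have h1 := hpos.re_inner_nonneg_left (hsym.eigenvectorBasis rfl k)
    have h2 : A (hsym.eigenvectorBasis rfl k) =
        ((hsym.eigenvalues rfl k : ℝ) : ℂ) • hsym.eigenvectorBasis rfl k :=
      hsym.apply_eigenvectorBasis rfl k
    rw [h2, inner_smul_left, inner_self_eq_norm_sq_to_K,
      (hsym.eigenvectorBasis rfl).orthonormal.1 k] at h1
    simpa using h1
  · intro k
    exact hsym.apply_eigenvectorBasis rfl k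

variable {A : E →L[ℂ] E} (e : EB A)

theorem EB.inner_A (j : Fin (Module.finrank ℂ E)) (x : E) :
    ⟪e.b j, A x⟫_ℂ = ((e.lam j : ℝ) : ℂ) * ⟪e.b j, x⟫_ℂ := by
  have hsym := ContinuousLinearMap.isSelfAdjoint_iff_isSymmetric.mp e.sa
  have := hsym (e.b j) x
  simp only [ContinuousLinearMap.coe_coe] at this
  rw [← this, e.eig, inner_smul_left, Complex.conj_ofReal]

theorem EB.inner_cfc (f : ℝ → ℝ) (hf : Continuous f) (j : Fin (Module.finrank ℂ E)) (x : E) :
    ⟪e.b j, cfc f A x⟫_ℂ = ((f (e.lam j) : ℝ) : ℂ) * ⟪e.b j, x⟫_ℂ := by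
  have hsa : IsSelfAdjoint (cfc f A) := cfc_predicate f A
  have hsym := ContinuousLinearMap.isSelfAdjoint_iff_isSymmetric.mp hsa
  have := hsym (e.b j) x
  simp only [ContinuousLinearMap.coe_coe] at this
  rw [← this, cfc_eig A e.sa f hf (e.lam j) (e.b j) (e.eig j), inner_smul_left,
    Complex.conj_ofReal]

theorem EB.mem_specAbove_iff (ε : ℝ) (v : E) :
    v ∈ specAbove A ε ↔ ∀ j, e.lam j < ε → ⟪e.b j, v⟫_ℂ = 0 := by
  constructor
  · intro hv j hj
    have : specAbove A ε ≤ LinearMap.ker (innerSL ℂ (e.b j) : E →ₗ[ℂ] ℂ) := by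
      apply iSup_le
      rintro ⟨μ, hμ⟩ w hw
      rw [Module.End.mem_eigenspace_iff] at hw
      simp only [ContinuousLinearMap.coe_coe] at hw
      rw [LinearMap.mem_ker]
      show ⟪e.b j, w⟫_ℂ = 0
      have h1 := e.inner_A j w
      rw [hw, inner_smul_right] at h1
      have h2 : ((μ : ℂ) - (e.lam j : ℂ)) * ⟪e.b j, w⟫_ℂ = 0 := by
        rw [sub_mul, h1, sub_self]
      rcases mul_eq_zero.mp h2 with h3 | h3
      · exfalso
        have : ((μ - e.lam j : ℝ) : ℂ) = 0 := by push_cast; exact h3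
        have h4 : μ - e.lam j = 0 := by exact_mod_cast this
        linarith
      · exact h3
    have := this hv
    rw [LinearMap.mem_ker] at this
    exact this
  · intro hv
    rw [← e.b.sum_repr' v]
    apply Submodule.sum_mem
    intro j _
    by_cases hj : e.lam j < ε
    · rw [hv j hj, zero_smul]
      exact Submodule.zero_mem _
    · apply Submodule.smul_mem
      have : e.b j ∈ Module.End.eigenspace (A : E →ₗ[ℂ] E) ((e.lam j : ℝ) : ℂ) := by
        rw [Module.End.mem_eigenspace_iff]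
        exact e.eig j
      exact (le_iSup (fun μ : {μ : ℝ // ε ≤ μ} =>
        Module.End.eigenspace (A : E →ₗ[ℂ] E) ((μ : ℝ) : ℂ)) ⟨e.lam j, not_lt.mp hj⟩) this

theorem EB.specAbove_eq_span (ε : ℝ) :
    specAbove A ε = Submodule.span ℂ (Set.range fun j : {j // ε ≤ e.lam j} => e.b j.1) := by
  apply le_antisymm
  · intro v hv
    rw [e.mem_specAbove_iff] at hv
    rw [← e.b.sum_repr' v]
    apply Submodule.sum_mem
    intro j _
    by_cases hj : e.lam j < ε
    · rw [hv j hj, zero_smul]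
      exact Submodule.zero_mem _
    · apply Submodule.smul_mem
      exact Submodule.subset_span ⟨⟨j, not_lt.mp hj⟩, rfl⟩
  · rw [Submodule.span_le]
    rintro _ ⟨⟨j, hj⟩, rfl⟩
    rw [SetLike.mem_coe, e.mem_specAbove_iff]
    intro i hi
    have hij : i ≠ j := by
      rintro rfl
      linarith
    exact e.b.orthonormal.2 hij

theorem EB.finrank_specAbove (ε : ℝ) :
    Module.finrank ℂ (specAbove A ε) = (Finset.univ.filter fun j => ε ≤ e.lam j).card := by
  classical
  rw [e.specAbove_eq_span]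
  rw [finrank_span_eq_card]
  · rw [Fintype.card_subtype]
  · exact e.b.orthonormal.linearIndependent.comp _ Subtype.val_injective

end eig

theorem trE_eq {ι : Type} [Fintype ι] [DecidableEq ι]
    (T : EuclideanSpace ℂ ι →L[ℂ] EuclideanSpace ℂ ι) {κ : Type} [Fintype κ]
    (b : OrthonormalBasis κ ℂ (EuclideanSpace ℂ ι)) :
    trE T = ∑ k, (⟪b k, T (b k)⟫_ℂ).re := by
  have h1 := LinearMap.trace_eq_sum_inner (T : EuclideanSpace ℂ ι →ₗ[ℂ] EuclideanSpace ℂ ι) b
  have h2 := LinearMap.trace_eq_sum_inner (T : EuclideanSpace ℂ ι →ₗ[ℂ] EuclideanSpace ℂ ι)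
    (EuclideanSpace.basisFun ι ℂ)
  have h3 : (∑ k, ⟪b k, T (b k)⟫_ℂ) =
      ∑ i, ⟪EuclideanSpace.basisFun ι ℂ i, T (EuclideanSpace.basisFun ι ℂ i)⟫_ℂ := by
    exact h1.symm.trans h2
  have h4 := congrArg Complex.re h3
  rw [Complex.re_sum, Complex.re_sum] at h4
  rw [h4]
  unfold trE
  apply Finset.sum_congr rfl
  intro p _
  rw [EuclideanSpace.basisFun_apply, EuclideanSpace.inner_single_left]
  simp

theorem la1 (ι : Type) [Fintype ι] [DecidableEq ι]
    (A : EuclideanSpace ℂ ι →L[ℂ] EuclideanSpace ℂ ι) (hA : 0 ≤ A)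
    (f : ℝ → ℝ) (ε : ℝ) (hf : Continuous f) :
      ((∀ t, 0 ≤ t → 0 ≤ f t) → (∀ t, ε ≤ t → 1 ≤ f t) →
        (Module.finrank ℂ (specAbove A ε) : ℝ) ≤ trE (cfc f A)) ∧
      (∀ c : ℝ, 0 ≤ c → (∀ t, 0 ≤ t → f t ≤ 1) → (∀ t, 0 ≤ t → t < ε → f t ≤ c) →
        trE (cfc f A) ≤ (Module.finrank ℂ (specAbove A ε) : ℝ) + c * Fintype.card ι) := by
  obtain ⟨e⟩ := exists_EB A hA
  have htr : trE (cfc f A) = ∑ k, f (e.lam k) := by
    rw [trE_eq (cfc f A) e.b]
    apply Finset.sum_congr rfl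
    intro k _
    rw [e.inner_cfc f hf, inner_self_eq_norm_sq_to_K, e.b.orthonormal.1 k]
    simp
  rw [htr, e.finrank_specAbove ε]
  constructor
  · intro h0 h1
    rw [Finset.card_filter]
    push_cast
    apply Finset.sum_le_sum
    intro k _
    split_ifs with hk
    · exact h1 _ hk
    · exact h0 _ (e.nonneg k)
  · intro c hc h1 h2
    have hcard : (Fintype.card ι : ℝ) = ∑ _k : Fin (Module.finrank ℂ (EuclideanSpace ℂ ι)), (1 : ℝ) := by
      rw [Finset.sum_const, Finset.card_univ, Fintype.card_fin, finrank_euclideanSpace]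
      simp
    rw [hcard, Finset.mul_sum, Finset.card_filter]
    push_cast
    rw [← Finset.sum_add_distrib]
    apply Finset.sum_le_sum
    intro k _
    split_ifs with hk
    · have := h1 _ (e.nonneg k)
      linarith
    · have := h2 _ (e.nonneg k) (not_le.mp hk)
      linarith

section part2

variable (E : Type) [NormedAddCommGroup E] [InnerProductSpace ℂ E] [FiniteDimensional ℂ E]
    [CompleteSpace E] (A : E →L[ℂ] E) (hA : 0 ≤ A)

include hA

theorem la_cfc (g : ℝ → ℝ) (ε : ℝ) (h0 : ∀ t, 0 ≤ t → t < ε → g t = 0) (hg : Continuous g)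
    (u : E) : cfc g A u ∈ specAbove A ε := by
  obtain ⟨e⟩ := exists_EB A hA
  rw [e.mem_specAbove_iff]
  intro j hj
  rw [e.inner_cfc g hg, h0 _ (e.nonneg j) hj]
  simp

theorem la_quad (ε : ℝ) (ζ : E) (hζ : ζ ∈ specAbove A ε) :
    ε * ‖ζ‖ ^ 2 ≤ (⟪ζ, A ζ⟫_ℂ).re := by
  obtain ⟨e⟩ := exists_EB A hA
  rw [e.mem_specAbove_iff] at hζ
  rw [← e.b.sum_sq_norm_inner_right ζ, ← e.b.sum_inner_mul_inner ζ (A ζ), Finset.mul_sum,
    Complex.re_sum]
  apply Finset.sum_le_sum
  intro j _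
  rw [e.inner_A]
  by_cases hj : e.lam j < ε
  · rw [hζ j hj]
    simp
  · have h1 : (⟪ζ, e.b j⟫_ℂ * (((e.lam j : ℝ) : ℂ) * ⟪e.b j, ζ⟫_ℂ)).re
        = e.lam j * ‖⟪e.b j, ζ⟫_ℂ‖ ^ 2 := by
      rw [show ⟪ζ, e.b j⟫_ℂ * (((e.lam j : ℝ) : ℂ) * ⟪e.b j, ζ⟫_ℂ)
        = ((e.lam j : ℝ) : ℂ) * (⟪ζ, e.b j⟫_ℂ * ⟪e.b j, ζ⟫_ℂ) by ring]
      rw [← inner_conj_symm ζ (e.b j), Complex.conj_mul', Complex.re_ofReal_mul]
      norm_cast
    rw [h1]
    have := not_lt.mp hj
    gcongr

theorem la_lower (g : ℝ → ℝ) (ε c : ℝ) (hg : Continuous g) (hc : 0 < c)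
    (h0 : ∀ t, 0 ≤ t → 0 ≤ g t) (h1 : ∀ t, ε ≤ t → c ≤ g t) (w v : E)
    (hv : v ∈ specAbove A ε) : c * ‖⟪v, w⟫_ℂ‖ ≤ ‖v‖ * ‖cfc g A w‖ := by
  obtain ⟨e⟩ := exists_EB A hA
  rw [e.mem_specAbove_iff] at hv
  have h2 : c * ‖⟪v, w⟫_ℂ‖ ≤ ∑ j, ‖⟪e.b j, v⟫_ℂ‖ * ‖⟪e.b j, cfc g A w⟫_ℂ‖ := by
    rw [← e.b.sum_inner_mul_inner v w]
    calc c * ‖∑ j, ⟪v, e.b j⟫_ℂ * ⟪e.b j, w⟫_ℂ‖
        ≤ c * ∑ j, ‖⟪v, e.b j⟫_ℂ * ⟪e.b j, w⟫_ℂ‖ := by
          gcongr
          exact norm_sum_le _ _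
      _ = ∑ j, c * ‖⟪v, e.b j⟫_ℂ * ⟪e.b j, w⟫_ℂ‖ := Finset.mul_sum _ _ _
      _ ≤ _ := by
          apply Finset.sum_le_sum
          intro j _
          rw [e.inner_cfc g hg, norm_mul, norm_mul, norm_inner_symm v (e.b j)]
          by_cases hj : e.lam j < ε
          · rw [hv j hj]
            simp
          · have h3 := h1 _ (not_lt.mp hj)
            rw [Complex.norm_real, Real.norm_eq_abs, abs_of_nonneg (h0 _ (e.nonneg j))]
            have h4 : 0 ≤ ‖⟪e.b j, v⟫_ℂ‖ * ‖⟪e.b j, w⟫_ℂ‖ := by positivity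
            nlinarith
  refine h2.trans ?_
  have hcs := Finset.sum_mul_sq_le_sq_mul_sq Finset.univ (fun j => ‖⟪e.b j, v⟫_ℂ‖)
    (fun j => ‖⟪e.b j, cfc g A w⟫_ℂ‖)
  rw [e.b.sum_sq_norm_inner_right, e.b.sum_sq_norm_inner_right, ← mul_pow] at hcs
  exact abs_le_of_sq_le_sq' hcs (by positivity) |>.2

theorem la_pert (B : E →L[ℂ] E) (ε ε' δ : ℝ) (hB : 0 ≤ B) (hε : 0 ≤ ε) (hεε : ε < ε')
    (hδ : ‖A - B‖ ≤ δ) (u : E) (hu : u ∈ specAbove A ε') :
    ∃ w ∈ specAbove B ε, ‖u - w‖ ≤ δ / (ε' - ε) * ‖u‖ ∧ ‖w‖ ≤ ‖u‖ ∧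
        ∀ v ∈ specAbove B ε, ⟪v, u - w⟫_ℂ = 0 := by
  obtain ⟨e⟩ := exists_EB A hA
  obtain ⟨e'⟩ := exists_EB B hB
  have hε'0 : 0 < ε' := lt_of_le_of_lt hε hεε
  have hδ0 : 0 ≤ δ := (norm_nonneg _).trans hδ
  set Q := specAbove B ε with hQ
  set S := specAbove A ε' with hS
  set P : E →L[ℂ] E := Q.starProjection with hP
  set PS : E →L[ℂ] E := S.starProjection with hPS
  have horth : ∀ x : E, ∀ v ∈ Q, ⟪v, x - P x⟫_ℂ = 0 := by
    intro x v hv
    have := Submodule.sub_starProjection_mem_orthogonal (K := Q) x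
    exact (Submodule.mem_orthogonal _ _).mp this v hv
  have hPmem : ∀ x : E, P x ∈ Q := fun x => Submodule.starProjection_apply_mem Q x
  have hcoord : ∀ (x : E) (j : Fin (Module.finrank ℂ E)),
      ⟪e'.b j, x - P x⟫_ℂ = if e'.lam j < ε then ⟪e'.b j, x⟫_ℂ else 0 := by
    intro x j
    split_ifs with hj
    · rw [inner_sub_right, (e'.mem_specAbove_iff ε (P x)).mp (hPmem x) j hj, sub_zero]
    · apply horth
      rw [hQ, e'.mem_specAbove_iff]
      intro i hi
      have hij : i ≠ j := by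
        rintro rfl
        exact hj hi
      exact e'.b.orthonormal.2 hij
  have hBw : ∀ x : E, ‖B x - P (B x)‖ ≤ ε * ‖x - P x‖ := by
    intro x
    have h1 : ‖B x - P (B x)‖ ^ 2 ≤ (ε * ‖x - P x‖) ^ 2 := by
      rw [mul_pow, ← e'.b.sum_sq_norm_inner_right (B x - P (B x)),
        ← e'.b.sum_sq_norm_inner_right (x - P x), Finset.mul_sum]
      apply Finset.sum_le_sum
      intro j _
      rw [hcoord, hcoord]
      split_ifs with hj
      · rw [e'.inner_A, norm_mul, mul_pow, Complex.norm_real, Real.norm_eq_abs,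
          abs_of_nonneg (e'.nonneg j)]
        have := e'.nonneg j
        gcongr
      · simp
    exact abs_le_of_sq_le_sq' h1 (by positivity) |>.2
  -- inverse of A on S
  have hinv : ∀ x ∈ S, ∃ w ∈ S, A w = x ∧ ‖w‖ ≤ ‖x‖ / ε' := by
    intro x hx
    have hgc : Continuous (fun t : ℝ => (max t ε')⁻¹) := by
      apply Continuous.inv₀ (by fun_prop)
      intro t
      have := le_max_right t ε'
      linarith
    set w := cfc (fun t : ℝ => (max t ε')⁻¹) A x with hw
    have hwc : ∀ j, ⟪e.b j, w⟫_ℂ = (((max (e.lam j) ε')⁻¹ : ℝ) : ℂ) * ⟪e.b j, x⟫_ℂ :=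
      fun j => e.inner_cfc _ hgc j x
    have hx' := (e.mem_specAbove_iff ε' x).mp hx
    refine ⟨w, ?_, ?_, ?_⟩
    · rw [hS, e.mem_specAbove_iff]
      intro j hj
      rw [hwc, hx' j hj, mul_zero]
    · have : ∀ j, ⟪e.b j, A w⟫_ℂ = ⟪e.b j, x⟫_ℂ := by
        intro j
        rw [e.inner_A, hwc]
        by_cases hj : e.lam j < ε'
        · rw [hx' j hj]
          simp
        · have hj' := not_lt.mp hj
          rw [max_eq_left hj', ← mul_assoc]
          have h0 : (e.lam j : ℂ) ≠ 0 := by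
            have : e.lam j ≠ 0 := by linarith
            exact_mod_cast this
          push_cast
          rw [mul_inv_cancel₀ h0, one_mul]
      rw [← e.b.sum_repr' (A w), ← e.b.sum_repr' x]
      apply Finset.sum_congr rfl
      intro j _
      rw [this j]
    · have h1 : ‖w‖ ^ 2 ≤ (‖x‖ / ε') ^ 2 := by
        rw [div_eq_mul_inv, mul_comm, mul_pow, ← e.b.sum_sq_norm_inner_right w,
          ← e.b.sum_sq_norm_inner_right x, Finset.mul_sum]
        apply Finset.sum_le_sum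
        intro j _
        rw [hwc, norm_mul, mul_pow, Complex.norm_real, Real.norm_eq_abs]
        have h2 : |(max (e.lam j) ε')⁻¹| ≤ ε'⁻¹ := by
          rw [abs_of_nonneg (by positivity)]
          exact inv_anti₀ hε'0 (le_max_right _ _)
        gcongr
      exact abs_le_of_sq_le_sq' h1 (by positivity) |>.2
  set T : E →L[ℂ] E := (1 - P) * PS with hT
  have hTx : ∀ x, T x = PS x - P (PS x) := by
    intro x
    rfl
  have hTb : ‖T‖ ≤ (δ + ε * ‖T‖) / ε' := by
    apply ContinuousLinearMap.opNorm_le_bound _ (by positivity)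
    intro x
    have hPSx : PS x ∈ S := Submodule.starProjection_apply_mem S x
    obtain ⟨w, hwS, hAw, hwn⟩ := hinv (PS x) hPSx
    have hPSw : PS w = w := Submodule.starProjection_eq_self_iff.mpr hwS
    have hn : ‖PS x‖ ≤ ‖x‖ := by
      have := ContinuousLinearMap.le_of_opNorm_le _ (Submodule.starProjection_norm_le S) x
      rwa [one_mul] at this
    have h1 : T x = ((A - B) w - P ((A - B) w)) + (B w - P (B w)) := by
      rw [hTx, ← hAw]
      have : A w = (A - B) w + B w := by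
        rw [sub_apply]
        abel
      rw [this, map_add]
      abel
    have h2 : ‖(A - B) w - P ((A - B) w)‖ ≤ δ * ‖w‖ := by
      have h3 : ‖(A - B) w - P ((A - B) w)‖ ^ 2 ≤ ‖(A - B) w‖ ^ 2 := by
        rw [← e'.b.sum_sq_norm_inner_right ((A - B) w - P ((A - B) w)),
          ← e'.b.sum_sq_norm_inner_right ((A - B) w)]
        apply Finset.sum_le_sum
        intro j _
        rw [hcoord]
        split_ifs
        · exact le_rfl
        · simp
      have h4 := abs_le_of_sq_le_sq' h3 (norm_nonneg _) |>.2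
      exact h4.trans (ContinuousLinearMap.le_of_opNorm_le _ hδ w)
    have h3 : ‖B w - P (B w)‖ ≤ ε * (‖T‖ * ‖w‖) := by
      refine (hBw w).trans ?_
      have : w - P w = T w := by rw [hTx, hPSw]
      rw [this]
      gcongr
      exact T.le_opNorm w
    calc ‖T x‖ ≤ δ * ‖w‖ + ε * (‖T‖ * ‖w‖) := by
          rw [h1]
          exact (norm_add_le _ _).trans (add_le_add h2 h3)
      _ = (δ + ε * ‖T‖) * ‖w‖ := by ring
      _ ≤ (δ + ε * ‖T‖) * (‖x‖ / ε') := by
          gcongr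
          exact hwn.trans (by gcongr)
      _ = (δ + ε * ‖T‖) / ε' * ‖x‖ := by ring
  have hTf : ‖T‖ ≤ δ / (ε' - ε) := by
    rw [le_div_iff₀ (by linarith)]
    rw [le_div_iff₀ hε'0] at hTb
    linarith
  refine ⟨P u, hPmem u, ?_, ?_, horth u⟩
  · have : u - P u = T u := by
      rw [hTx, Submodule.starProjection_eq_self_iff.mpr hu]
    rw [this]
    exact ContinuousLinearMap.le_of_opNorm_le _ hTf u
  · have := ContinuousLinearMap.le_of_opNorm_le _ (Submodule.starProjection_norm_le Q) u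
    rwa [one_mul] at this

end part2

theorem la : LAStmt := by
  refine ⟨?_, ?_⟩
  · intro ι _ _ A hA f ε hf _
    exact la1 ι A hA f ε hf
  · intro E _ _ _ _ A hA
    refine ⟨?_, ?_, ?_, ?_⟩
    · intro B ε ε' δ hB hε hεε hδ u hu
      exact la_pert E A hA B ε ε' δ hB hε hεε hδ u hu
    · intro g ε _ h0 hg u
      exact la_cfc E A hA g ε h0 hg u
    · intro g ε c hg hc h0 h1 w v hv
      exact la_lower E A hA g ε c hg hc h0 h1 w v hv
    · intro ε ζ hζ
      exact la_quad E A hA ε ζ hζ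

end Pool.Agent.H87.RC
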