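import Mathlib
import Pool.Agent.H27.RC.Stmts

open Filter Topology

namespace Pool.Agent.H87.RC

open Pool.Agent.H27.RC

theorem zpow_add_app {Z : Type} [TopologicalSpace Z] (k : Z ≃ₜ Z) (a b : ℤ) (z : Z) :
    (k ^ (a + b)) z = (k ^ a) ((k ^ b) z) := by
  rw [zpow_add]; rfl

theorem zpow_one_app {Z : Type} [TopologicalSpace Z] (k : Z ≃ₜ Z) (z : Z) :
    (k ^ (1 : ℤ)) z = k z := by
  rw [zpow_one]

theorem zpow_zero_app {Z : Type} [TopologicalSpace Z] (k : Z ≃ₜ Z) (z : Z) :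
    (k ^ (0 : ℤ)) z = z := by
  rw [zpow_zero]; rfl

theorem semiconj_zpow {X Y : Type} [TopologicalSpace X] [TopologicalSpace Y] (h : X ≃ₜ X)
    (k : Y ≃ₜ Y) (g : X → Y) (hg : ∀ x, g (h x) = k (g x)) (i : ℤ) (x : X) :
    g ((h ^ i) x) = (k ^ i) (g x) := by
  induction i using Int.induction_on generalizing x with
  | zero => rw [zpow_zero_app, zpow_zero_app]
  | succ n ih => rw [zpow_add_app, zpow_add_app, zpow_one_app, zpow_one_app, ih, hg]
  | pred n ih =>
    rw [sub_eq_add_neg, zpow_add_app, zpow_add_app, ih]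
    congr 1
    have h1 : g x = k (g ((h ^ (-1 : ℤ)) x)) := by
      rw [← hg]
      congr 1
      have : (h ^ ((1 : ℤ) + (-1))) x = x := by
        rw [show (1 : ℤ) + (-1) = 0 by norm_num, zpow_zero_app]
      rw [zpow_add_app, zpow_one_app] at this
      exact this.symm
    rw [h1]
    have : (k ^ ((-1 : ℤ) + 1)) (g ((h ^ (-1 : ℤ)) x)) = g ((h ^ (-1 : ℤ)) x) := by
      rw [show (-1 : ℤ) + 1 = 0 by norm_num, zpow_zero_app]
    rw [zpow_add_app, zpow_one_app] at this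
    exact this.symm

theorem not_periodic {Y : Type} [TopologicalSpace Y] [T2Space Y] [Infinite Y] (k : Y ≃ₜ Y)
    (hk : IsMinimalHomeo k) (y : Y) (i : ℤ) (hi : i ≠ 0) : (k ^ i) y ≠ y := by
  intro hy
  have hper : ∀ m : ℤ, (k ^ (i * m)) y = y := by
    intro m
    induction m using Int.induction_on with
    | zero => rw [mul_zero, zpow_zero_app]
    | succ n ih =>
      rw [mul_add, mul_one, zpow_add_app, hy, ih]
    | pred n ih =>
      have hy' : (k ^ (-i)) y = y := by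
        have : (k ^ (-i + i)) y = y := by rw [neg_add_cancel, zpow_zero_app]
        rwa [zpow_add_app, hy] at this
      rw [show i * (-(n : ℤ) - 1) = i * (-(n : ℤ)) + (-i) by ring, zpow_add_app, hy', ih]
  have hsub : Set.range (fun n : ℤ => (k ^ n) y) ⊆ (fun n : ℤ => (k ^ n) y) '' (Set.Ico 0 |i|) := by
    rintro _ ⟨n, rfl⟩
    refine ⟨n % i, ⟨Int.emod_nonneg n hi, Int.emod_lt_abs n hi⟩, ?_⟩
    show (k ^ (n % i)) y = (k ^ n) y
    conv_rhs => rw [← Int.emod_add_mul_ediv n i, zpow_add_app, hper]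
  have hfin : (Set.range (fun n : ℤ => (k ^ n) y)).Finite :=
    ((Set.finite_Ico 0 |i|).image _).subset hsub
  have huniv : Set.range (fun n : ℤ => (k ^ n) y) = Set.univ := by
    have := (hk y).closure_eq
    rwa [hfin.isClosed.closure_eq] at this
  rw [huniv] at hfin
  exact Set.infinite_univ hfin

theorem mk : MKStmt := by
  intro X _ h Y _ _ _ _ k g hk hg hgk L
  obtain ⟨y0⟩ : Nonempty Y := inferInstance
  -- separation
  have hsep : ∀ i : ℤ, i ≠ 0 → ∃ V : Set Y, IsOpen V ∧ y0 ∈ V ∧ ∀ y ∈ V, (k ^ i) y ∉ V := by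
    intro i hi
    obtain ⟨U, W, hU, hW, hyU, hyW, hd⟩ := t2_separation (not_periodic k hk y0 i hi).symm
    refine ⟨U ∩ (k ^ i) ⁻¹' W, hU.inter (hW.preimage (k ^ i).continuous), ⟨hyU, hyW⟩, ?_⟩
    rintro y ⟨_, hy2⟩ ⟨hy3, _⟩
    exact Set.disjoint_left.mp hd hy3 hy2
  choose! V hVo hVy hVd using hsep
  set S : Finset ℤ := (Finset.Icc (-(L : ℤ)) L).filter (fun i => i ≠ 0) with hS
  set V0 : Set Y := ⋂ i ∈ S, V i with hV0
  have hV0o : IsOpen V0 := by
    apply isOpen_biInter_finset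
    intro i hi
    exact hVo i (Finset.mem_filter.mp hi).2
  have hV0y : y0 ∈ V0 := by
    simp only [hV0, Set.mem_iInter]
    intro i hi
    exact hVy i (Finset.mem_filter.mp hi).2
  have hV0d : ∀ i : ℤ, i ≠ 0 → |i| ≤ (L : ℤ) → ∀ y ∈ V0, (k ^ i) y ∉ V0 := by
    intro i hi hiL y hy hy2
    have hiS : i ∈ S := by
      rw [hS, Finset.mem_filter, Finset.mem_Icc]
      exact ⟨abs_le.mp hiL, hi⟩
    have h1 : y ∈ V i := Set.mem_iInter₂.mp hy i hiS
    have h2 : (k ^ i) y ∈ V i := Set.mem_iInter₂.mp hy2 i hiS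
    exact hVd i hi y h1 h2
  obtain ⟨C, hCn, hCc, hCV⟩ := exists_mem_nhds_isClosed_subset (hV0o.mem_nhds hV0y)
  obtain ⟨φ, hφ0, hφ1, hφ⟩ := exists_continuous_zero_one_of_isClosed (s := V0ᶜ) (t := C)
    hV0o.isClosed_compl hCc (Set.disjoint_left.mpr fun y hy hyC => hy (hCV hyC))
  -- syndetic
  have hcov : (Set.univ : Set Y) ⊆ ⋃ n : ℤ, (k ^ n) ⁻¹' (interior C) := by
    intro y _
    obtain ⟨z, hz1, hz2⟩ := (hk y).inter_open_nonempty (interior C) isOpen_interior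
      ⟨y0, mem_interior_iff_mem_nhds.mpr hCn⟩
    obtain ⟨n, rfl⟩ := hz2
    exact Set.mem_iUnion.mpr ⟨n, hz1⟩
  obtain ⟨t, ht⟩ := isCompact_univ.elim_finite_subcover _
    (fun n : ℤ => isOpen_interior.preimage (k ^ n).continuous) hcov
  set R0 : ℕ := t.sup Int.natAbs with hR0
  refine ⟨2 * R0, fun x => φ (g x), φ.continuous.comp hg, fun x => ?_, ?_, ?_⟩
  · exact ⟨(hφ (g x)).1, (hφ (g x)).2⟩
  · intro x i hi hiL
    by_cases hx : g x ∈ V0
    · right
      show φ (g ((h ^ i) x)) = 0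
      rw [semiconj_zpow h k g hgk]
      exact hφ0 (hV0d i hi hiL _ hx)
    · left
      exact hφ0 hx
  · intro x
    have hmem := ht (Set.mem_univ ((k ^ (R0 : ℤ)) (g x)))
    obtain ⟨n, hn, hnx⟩ := Set.mem_iUnion₂.mp hmem
    have hnR : n.natAbs ≤ R0 := Finset.le_sup (f := Int.natAbs) hn
    refine ⟨(n + R0).toNat, by omega, ?_⟩
    have hc : (((n + R0).toNat : ℕ) : ℤ) = n + R0 := by omega
    show φ (g ((h ^ (((n + R0).toNat : ℕ) : ℤ)) x)) = 1
    rw [hc, semiconj_zpow h k g hgk, zpow_add_app]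
    exact hφ1 (interior_subset hnx)

end Pool.Agent.H87.RC
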